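import Pool.Agent.SelbergND.NodalCount

/-!
# Nodal domains of eigenforms of `Γ(N)` with eigenvalue at most `1/4` are large

There is an absolute constant `c > 0` such that for all `N ≥ 1`, `0 < μ ≤ 1/4` and every real
square-integrable eigenform `f` of `Γ(N)` with eigenvalue `μ`, every nodal domain of `f` has area at
least `c N^(1 + √(1 - 4 μ))` in `Γ(N) \ ℍ`. (The area of the image of `Ω` in `Γ(N) \ ℍ` is the area of
`F ∩ ⋃ γ, γ Ω` for a fundamental domain `F`; the bound holds for every measurable `F` that meets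
every orbit.) Hence the number of nodal domains in `Γ(N) \ ℍ` is at most the area of `Γ(N) \ ℍ`
divided by this bound.
-/

open Set MeasureTheory UpperHalfPlane CongruenceSubgroup
open scoped MatrixGroups

namespace Pool.Agent.Results.MP_a812b2_nt.LargeNodalDomains

open Pool.Agent.Selberg Pool.Agent.SelbergND

theorem result : ∃ c : ℝ, 0 < c ∧ ∀ N : ℕ, 0 < N → ∀ μ : ℝ, 0 < μ → μ ≤ 1 / 4 → ∀ f : ℂ → ℂ,
    IsEigenform (Gamma N) μ f → (∀ z : ℍ, (f (z : ℂ)).im = 0) →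
    ∀ F : Set ℍ, MeasurableSet F → (∀ z : ℍ, ∃ γ ∈ Gamma N, γ • z ∈ F) →
    (∀ z₀ : ℍ, f (z₀ : ℂ) ≠ 0 →
      ENNReal.ofReal (c * (N:ℝ) ^ (1 + Real.sqrt (1 - 4 * μ))) ≤
        volume (F ∩ ⋃ γ ∈ Gamma N, (fun z : ℍ => γ • z) ''
          connectedComponentIn {z : ℍ | f (z : ℂ) ≠ 0} z₀)) ∧
    (∀ (k : ℕ) (z : Fin k → ℍ), (∀ i, f (z i : ℂ) ≠ 0) →
      (∀ i j, i ≠ j → ∀ γ ∈ Gamma N, γ • z i ∉ connectedComponentIn {z : ℍ | f (z : ℂ) ≠ 0} (z j)) →
      k * ENNReal.ofReal (c * (N:ℝ) ^ (1 + Real.sqrt (1 - 4 * μ))) ≤ volume F) :=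
  nodal_main

end Pool.Agent.Results.MP_a812b2_nt.LargeNodalDomains
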