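import Pool.Agent.SelbergLF.T5
import Pool.Agent.SelbergDen.TwDef

/-!
# A log-free density theorem for congruence subgroups, sharp at the edge of the continuous spectrum

There are `c, C > 0` such that for every congruence subgroup `Γ` of `SL(2,ℤ)`, of index `I`, every
irreducible unitary representation `ψ : Γ → U(d)` with congruence kernel, `D = d I`, every
`0 ≤ η ≤ 1/4` and all linearly independent square-integrable `ψ`-twisted eigenforms of `Γ` with
eigenvalues `0 < λ_i ≤ 1/4 + η²`,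
`∑ D ^ (c √(1/4 - λ_i)) ≤ C D (η + 1 / (1 + log D)) ^ 3`
(where the square root of a negative number is `0`).

For `ψ = 1` this is a log-free density theorem for the exceptional eigenvalues of all congruence
subgroups, for `Γ = SL(2,ℤ)` it is one for all irreducible types of `SL(2,ℤ/N)` in terms of the
dimension alone.
-/

open Set MeasureTheory UpperHalfPlane CongruenceSubgroup
open scoped MatrixGroups

namespace Pool.Agent.Results.MP_a812b2_nt.LogFreeDensity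

open Pool.Agent.SelbergDen

theorem result : ∃ c C : ℝ, 0 < c ∧ 0 < C ∧
    ∀ Γ : Subgroup SL(2, ℤ), (∃ N : ℕ, 0 < N ∧ Gamma N ≤ Γ) →
    ∀ (d : ℕ) (ψ : Γ →* Matrix.unitaryGroup (Fin d) ℂ),
      (∃ M : ℕ, 0 < M ∧ ∀ γ : Γ, (γ : SL(2, ℤ)) ∈ Gamma M → ψ γ = 1) →
      (∀ W : Submodule ℂ (Fin d → ℂ),
        (∀ γ : Γ, ∀ w ∈ W, (ψ γ : Matrix (Fin d) (Fin d) ℂ).mulVec w ∈ W) → W = ⊥ ∨ W = ⊤) →
    ∀ η : ℝ, 0 ≤ η → η ≤ 1 / 4 →
    ∀ (m : ℕ) (μ : Fin m → ℝ) (F : Fin m → ℂ → Fin d → ℂ),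
      (∀ i, 0 < μ i ∧ μ i ≤ 1 / 4 + η ^ 2 ∧ IsTwistedEigenform Γ ψ (μ i) (F i)) →
      LinearIndependent ℂ (fun i => fun z : ℍ => F i z) →
      ∑ i, ((d : ℝ) * Γ.index) ^ (c * Real.sqrt (1 / 4 - μ i)) ≤
        C * (d * Γ.index) * (η + 1 / (1 + Real.log (d * Γ.index))) ^ 3 :=
  Pool.Agent.SelbergLF.edge_irr

end Pool.Agent.Results.MP_a812b2_nt.LogFreeDensity
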