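import Pool.Agent.SelbergLF.M8c
import Pool.Agent.SelbergLF.Res5b
import Pool.Agent.SelbergDen.TwDef

/-!
# The density hypothesis for all congruence subgroups, without any loss in the constant

For all `ε, B > 0` there is `C > 0` such that for every congruence subgroup `Γ` of `SL(2,ℤ)`, of index `I`,
every unitary representation `ψ : Γ → U(d)` which is trivial on `Γ ∩ Γ(M)` for some `1 ≤ M ≤ B I ^ B`, every
`0 ≤ η ≤ 1/4` and all linearly independent square-integrable `ψ`-twisted eigenforms of `Γ` with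
eigenvalues `0 < λ_i ≤ 1/4 + η²`,
`∑ I ^ ((2 - ε) √(1/4 - λ_i)) ≤ C d I (η + 1 / (1 + log I)) ^ 3`
(where the square root of a negative number is `0`).

For `ψ = 1` this is the exponent `2a` of the density hypothesis for the exceptional eigenvalues
`1/4 - a²`, for all congruence subgroups, without the factor `I ^ ε`.
-/

open Set MeasureTheory UpperHalfPlane CongruenceSubgroup
open scoped MatrixGroups

namespace Pool.Agent.Results.MP_a812b2_nt.LogFreeHypothesis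

open Pool.Agent.SelbergDen

theorem result : ∀ ε B : ℝ, 0 < ε → 0 < B → ∃ C : ℝ, 0 < C ∧
    ∀ Γ : Subgroup SL(2, ℤ), (∃ N : ℕ, 0 < N ∧ Gamma N ≤ Γ) →
    ∀ (M d : ℕ) (ψ : Γ →* Matrix.unitaryGroup (Fin d) ℂ), 0 < M → (M : ℝ) ≤ B * (Γ.index : ℝ) ^ B →
      (∀ γ : Γ, (γ : SL(2, ℤ)) ∈ Gamma M → ψ γ = 1) →
    ∀ η : ℝ, 0 ≤ η → η ≤ 1 / 4 →
    ∀ (m : ℕ) (μ : Fin m → ℝ) (F : Fin m → ℂ → Fin d → ℂ),
      (∀ i, 0 < μ i ∧ μ i ≤ 1 / 4 + η ^ 2 ∧ IsTwistedEigenform Γ ψ (μ i) (F i)) →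
      LinearIndependent ℂ (fun i => fun z : ℍ => F i z) →
      ∑ i, (Γ.index : ℝ) ^ ((2 - ε) * Real.sqrt (1 / 4 - μ i)) ≤
        C * (d * Γ.index) * (η + 1 / (1 + Real.log Γ.index)) ^ 3 :=
  Pool.Agent.SelbergLF.hyp_groups fun N _ μ hμ f hf y hy =>
    Pool.Agent.SelbergLF.cusp_zero_all N μ hμ f hf y hy

end Pool.Agent.Results.MP_a812b2_nt.LogFreeHypothesis
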