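import Pool.Agent.SelbergLF.M8d
import Pool.Agent.SelbergLF.Res5b
import Pool.Agent.SelbergDen.VecDef

/-!
# The density hypothesis for all irreducible congruence types, without any loss in the constant

For every `ε > 0` there is `C > 0` such that for every `N`, every irreducible unitary representation
`ρ` of `SL(2,ℤ/N)` of dimension `d`, every `0 ≤ η ≤ 1/4` and all linearly independent square-integrable
`ρ`-valued eigenforms of `SL(2,ℤ)` with eigenvalues `0 < λ_i ≤ 1/4 + η²`,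
`∑ d ^ ((2 - ε) √(1/4 - λ_i)) ≤ C d (η + 1 / (1 + log d)) ^ 3`
(where the square root of a negative number is `0`). The bound does not depend on `N`.
-/

open Set MeasureTheory UpperHalfPlane CongruenceSubgroup
open scoped MatrixGroups

namespace Pool.Agent.Results.MP_a812b2_nt.LogFreeTypes

open Pool.Agent.SelbergDen

theorem result : ∀ ε : ℝ, 0 < ε → ∃ C : ℝ, 0 < C ∧
    ∀ (N : ℕ) [NeZero N] (d : ℕ)
      (ρ : Matrix.SpecialLinearGroup (Fin 2) (ZMod N) →* Matrix.unitaryGroup (Fin d) ℂ),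
      (∀ W : Submodule ℂ (Fin d → ℂ),
          (∀ g, ∀ w ∈ W, (ρ g : Matrix (Fin d) (Fin d) ℂ).mulVec w ∈ W) → W = ⊥ ∨ W = ⊤) →
    ∀ η : ℝ, 0 ≤ η → η ≤ 1 / 4 →
    ∀ (m : ℕ) (μ : Fin m → ℝ) (F : Fin m → ℂ → Fin d → ℂ),
      (∀ i, 0 < μ i ∧ μ i ≤ 1 / 4 + η ^ 2 ∧ IsVectorEigenform
        (ρ.comp (Matrix.SpecialLinearGroup.map (Int.castRingHom (ZMod N)))) (μ i) (F i)) →
      LinearIndependent ℂ (fun i => fun z : ℍ => F i z) →
      ∑ i, (d : ℝ) ^ ((2 - ε) * Real.sqrt (1 / 4 - μ i)) ≤ C * d * (η + 1 / (1 + Real.log d)) ^ 3 :=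
  Pool.Agent.SelbergLF.hyp_types fun N _ μ hμ f hf y hy =>
    Pool.Agent.SelbergLF.cusp_zero_all N μ hμ f hf y hy

end Pool.Agent.Results.MP_a812b2_nt.LogFreeTypes
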